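import Pool.Agent.H13.HN.Iitaka
import Pool.Agent.H74.HN.Classes

/-!
# Module NLOW: the rank of the restriction of sections to a very general fibre

`N = dim H^0(Y, a A + b L) | W` for a very general fibre `W` of the Iitaka fibration of `L`: lower and
upper bounds from Riemann-Roch on `Y` and from the field `rank`.
-/

namespace Pool.Agent.H61.HN

open Pool.Agent.H83.HN Pool.Agent.H13.HN
open scoped BigOperators

/-- lower bound of a polynomial with positive leading coefficient -/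
theorem poly_lower (p : Polynomial ℚ) (n : ℕ) (hd : p.natDegree = n) (hp : 0 < p.leadingCoeff) :
    ∃ c : ℝ, 0 < c ∧ ∃ t0 : ℝ, ∀ t : ℚ, t0 ≤ (t : ℝ) → c * (t : ℝ) ^ n ≤ ((p.eval t : ℚ) : ℝ) := by
  classical
  set P : Polynomial ℝ := p.map (algebraMap ℚ ℝ) with hP
  have hinj : Function.Injective (algebraMap ℚ ℝ) := (algebraMap ℚ ℝ).injective
  have hlead : P.leadingCoeff = (p.leadingCoeff : ℝ) := by
    rw [hP, Polynomial.leadingCoeff_map]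
    rfl
  have hdeg : P.degree = (Polynomial.X ^ n : Polynomial ℝ).degree := by
    rw [hP, Polynomial.degree_map, Polynomial.degree_X_pow]
    have hp0 : p ≠ 0 := by
      rintro rfl
      simp at hp
    rw [Polynomial.degree_eq_natDegree hp0, hd]
  have h := Polynomial.div_tendsto_atTop_leadingCoeff_div_of_degree_eq P
    (Polynomial.X ^ n : Polynomial ℝ) hdeg
  rw [hlead, Polynomial.leadingCoeff_X_pow, div_one] at h
  have hl : (0 : ℝ) < (p.leadingCoeff : ℝ) := by exact_mod_cast hp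
  have h2 := h.eventually (lt_mem_nhds (half_lt_self hl))
  obtain ⟨t1, ht1⟩ := Filter.eventually_atTop.1 h2
  refine ⟨(p.leadingCoeff : ℝ) / 2, half_pos hl, max t1 1, fun t ht => ?_⟩
  have h3 := ht1 (t : ℝ) ((le_max_left _ _).trans ht)
  have h4 : (0 : ℝ) < (t : ℝ) ^ n :=
    pow_pos (lt_of_lt_of_le one_pos ((le_max_right _ _).trans ht)) n
  rw [Polynomial.eval_pow, Polynomial.eval_X, lt_div_iff₀ h4] at h3
  have h5 : P.eval (t : ℝ) = ((p.eval t : ℚ) : ℝ) := by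
    rw [hP]
    have := Polynomial.eval_map_algebraMap p (t : ℝ)
    rw [this]
    have h6 := Polynomial.aeval_algebraMap_apply ℝ t p
    have h7 : (algebraMap ℚ ℝ) t = (t : ℝ) := rfl
    rw [h7] at h6
    rw [h6, Polynomial.coe_aeval_eq_eval]
    rfl
  rw [h5] at h3
  exact h3.le

/-- upper bound of a polynomial -/
theorem poly_upper (p : Polynomial ℚ) (n : ℕ) (hd : p.natDegree = n) :
    ∃ C : ℝ, 0 < C ∧ ∀ t : ℚ, 1 ≤ t → ((p.eval t : ℚ) : ℝ) ≤ C * (t : ℝ) ^ n := by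
  refine ⟨1 + ∑ i ∈ Finset.range (n + 1), |((p.coeff i : ℚ) : ℝ)|,
    add_pos_of_pos_of_nonneg one_pos (Finset.sum_nonneg fun _ _ => abs_nonneg _), fun t ht => ?_⟩
  have ht' : (1 : ℝ) ≤ (t : ℝ) := by exact_mod_cast ht
  have hpow : 0 ≤ (t : ℝ) ^ n := pow_nonneg (zero_le_one.trans ht') n
  rw [Polynomial.eval_eq_sum_range, hd]
  push_cast
  have h1 : ∑ i ∈ Finset.range (n + 1), ((p.coeff i : ℚ) : ℝ) * (t : ℝ) ^ i ≤
      ∑ i ∈ Finset.range (n + 1), |((p.coeff i : ℚ) : ℝ)| * (t : ℝ) ^ n := by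
    refine Finset.sum_le_sum fun i hi => ?_
    have h2 : (t : ℝ) ^ i ≤ (t : ℝ) ^ n :=
      pow_le_pow_right₀ ht' (Nat.lt_succ_iff.1 (Finset.mem_range.1 hi))
    calc ((p.coeff i : ℚ) : ℝ) * (t : ℝ) ^ i ≤ |((p.coeff i : ℚ) : ℝ)| * (t : ℝ) ^ i :=
          mul_le_mul_of_nonneg_right (le_abs_self _) (pow_nonneg (zero_le_one.trans ht') i)
      _ ≤ _ := mul_le_mul_of_nonneg_left h2 (abs_nonneg _)
  rw [← Finset.sum_mul] at h1
  rw [add_mul, one_mul]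
  linarith

variable {n : ℕ} {Lam : Type} [AddCommGroup Lam] {q : Lam → Lam → ℤ} {M : Manifold n Lam q}
  {L A : Lam}

/-- the class `a A + b L` is ample -/
theorem comb_ample (hA : A ∈ M.Ample) (hL : L ∈ M.Nef) (a b : ℕ) (ha : 1 ≤ a) :
    a • A + b • L ∈ M.Ample := by
  have h1 : ∀ j : ℕ, ∀ x ∈ M.Nef, j • x ∈ M.Nef := by
    intro j x hx
    induction j with
    | zero => simpa using M.nef_zero
    | succ j ih => rw [succ_nsmul]; exact M.nef_add _ ih _ hx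
  obtain ⟨a', rfl⟩ : ∃ a', a = a' + 1 := ⟨a - 1, by omega⟩
  have h2 : (a' + 1) • A + b • L = A + (a' • A + b • L) := by
    rw [succ_nsmul]
    abel
  rw [h2]
  exact M.ample_add _ hA _ (M.nef_add _ (h1 _ _ (M.ample_nef hA)) _ (h1 _ _ hL))

/-- the square of `a A + b L` -/
theorem comb_sq (hadd : ∀ x y z, q (x + y) z = q x z + q y z) (hsymm : ∀ x y, q x y = q y x)
    (hLL : q L L = 0) (a b : ℕ) :
    q (a • A + b • L) (a • A + b • L) = (a : ℤ) ^ 2 * q A A + 2 * a * b * q L A := by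
  have h := Pool.Agent.H74.HN.q_comb (A := A) hadd hsymm hLL (a : ℤ) (b : ℤ)
  rw [natCast_zsmul, natCast_zsmul] at h
  exact h

/-- the square of `a A + b L` is of size `a (a + b)` -/
theorem comb_bounds (hadd : ∀ x y z, q (x + y) z = q x z + q y z)
    (hsymm : ∀ x y, q x y = q y x) (hA : A ∈ M.Ample) (hL : L ∈ M.Nef) (hLL : q L L = 0)
    (hL0 : L ≠ 0) (a b : ℕ) :
    (a : ℤ) * (a + b) ≤ q (a • A + b • L) (a • A + b • L) ∧
      q (a • A + b • L) (a • A + b • L) ≤ (q A A + 2 * q L A) * (a * (a + b)) := by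
  have h1 : 0 < q A A := M.ample_q A hA
  have h2 : 0 < q L A := by
    rw [hsymm]
    exact M.ample_nef_q A hA L hL hL0
  rw [comb_sq hadd hsymm hLL]
  have ha : (0 : ℤ) ≤ a := Int.natCast_nonneg a
  have hb : (0 : ℤ) ≤ b := Int.natCast_nonneg b
  have hab : (0 : ℤ) ≤ a * b := mul_nonneg ha hb
  have haa : (0 : ℤ) ≤ (a : ℤ) ^ 2 := sq_nonneg _
  constructor
  · nlinarith [mul_nonneg haa (by omega : (0 : ℤ) ≤ q A A - 1),
      mul_nonneg hab (by omega : (0 : ℤ) ≤ q L A - 1)]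
  · nlinarith [mul_nonneg haa h2.le, mul_nonneg hab h1.le]

/-- **lower bound**, general form -/
theorem nlow_gen (I : Iitaka M L) (hadd : ∀ x y z, q (x + y) z = q x z + q y z)
    (hsymm : ∀ x y, q x y = q y x) (hA : A ∈ M.VeryAmple) (hL : L ∈ M.Nef) (hLL : q L L = 0)
    (hL0 : L ≠ 0) :
    ∃ c : ℝ, 0 < c ∧ ∃ a0 : ℕ, 1 ≤ a0 ∧ ∃ bad : ℕ → Set M.P,
      (∀ i, IsClosed (bad i) ∧ bad i ≠ Set.univ) ∧ ∀ x ∈ I.Reg, (∀ i, x ∉ bad i) →
        ∀ a b : ℕ, a0 ≤ a → c * ((a : ℝ) * (a + b)) ^ n ≤ (1 + (a : ℝ) + b) ^ I.k *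
          Module.finrank ℂ ((M.Sec (a • A + b • L)).map
            (LinearMap.funLeft ℂ ℂ (Subtype.val : I.Fib x → M.P))) := by
  have hAa := M.va_ample hA
  obtain ⟨c, hc, t0, ht0⟩ := poly_lower M.rr n M.rr_deg M.rr_pos
  obtain ⟨C, bad, hbad, hC⟩ := I.rank A hA
  set C' : ℝ := max C 1 with hC'
  have hC1 : 0 < C' := lt_of_lt_of_le one_pos (le_max_right _ _)
  refine ⟨c / C', div_pos hc hC1, ⌈t0⌉₊ + 1, by omega, bad, hbad, fun x hx hxb a b hab => ?_⟩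
  have hr := hC x hx hxb a b
  set N : ℝ := (Module.finrank ℂ ((M.Sec (a • A + b • L)).map
    (LinearMap.funLeft ℂ ℂ (Subtype.val : I.Fib x → M.P))) : ℝ) with hN
  have hN0 : 0 ≤ N := by
    rw [hN]
    exact Nat.cast_nonneg _
  have ha1 : 1 ≤ a := by omega
  have ha1' : (1 : ℝ) ≤ a := by exact_mod_cast ha1
  have hb0 : (0 : ℝ) ≤ b := Nat.cast_nonneg b
  have hE := comb_ample hAa hL a b ha1
  have hrr := M.rr_eq _ hE
  obtain ⟨hlo, -⟩ := comb_bounds hadd hsymm hAa hL hLL hL0 a b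
  set t : ℤ := q (a • A + b • L) (a • A + b • L) with ht
  have hlo' : (a : ℝ) * (a + b) ≤ ((t : ℚ) : ℝ) := by
    have : ((a : ℝ) * (a + b)) ≤ ((t : ℤ) : ℝ) := by exact_mod_cast hlo
    simpa using this
  have hbig : t0 ≤ ((t : ℚ) : ℝ) := by
    have h1 : t0 ≤ (⌈t0⌉₊ : ℝ) := Nat.le_ceil t0
    have h2 : (⌈t0⌉₊ : ℝ) ≤ a := by
      have : ⌈t0⌉₊ ≤ a := by omega
      exact_mod_cast this
    have h3 : (a : ℝ) ≤ (a : ℝ) * (a + b) := by
      have : (1 : ℝ) ≤ (a : ℝ) + b := by linarith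
      nlinarith
    linarith
  have h4 := ht0 (t : ℚ) hbig
  rw [← hrr] at h4
  have h5 : ((a : ℝ) * (a + b)) ^ n ≤ (((t : ℚ) : ℝ)) ^ n :=
    pow_le_pow_left₀ (by positivity) hlo' n
  have h6 : c * ((a : ℝ) * (a + b)) ^ n ≤ C' * (1 + (a : ℝ) + b) ^ I.k * N := by
    calc c * ((a : ℝ) * (a + b)) ^ n ≤ c * (((t : ℚ) : ℝ)) ^ n :=
          mul_le_mul_of_nonneg_left h5 hc.le
      _ ≤ (((Module.finrank ℂ (M.Sec (a • A + b • L)) : ℚ)) : ℝ) := h4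
      _ = (Module.finrank ℂ (M.Sec (a • A + b • L)) : ℝ) := by norm_cast
      _ ≤ C * (1 + (a : ℝ) + b) ^ I.k * N := hr
      _ ≤ C' * (1 + (a : ℝ) + b) ^ I.k * N := by
          refine mul_le_mul_of_nonneg_right ?_ hN0
          exact mul_le_mul_of_nonneg_right (le_max_left _ _) (by positivity)
  rw [div_mul_eq_mul_div, div_le_iff₀ hC1]
  calc c * ((a : ℝ) * (a + b)) ^ n ≤ C' * (1 + (a : ℝ) + b) ^ I.k * N := h6
    _ = (1 + (a : ℝ) + b) ^ I.k * N * C' := by ring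

/-- **NLOW**: `N >= c m^(2n-k) R^(2(n-k))` for `a ~ m`, `b ~ m R^2` -/
theorem nlow (I : Iitaka M L) (hadd : ∀ x y z, q (x + y) z = q x z + q y z)
    (hsymm : ∀ x y, q x y = q y x) (hA : A ∈ M.VeryAmple) (hL : L ∈ M.Nef) (hLL : q L L = 0)
    (hL0 : L ≠ 0) (hk : I.k ≤ n) (C1 : ℝ) (hC1 : 1 ≤ C1) :
    ∃ c : ℝ, 0 < c ∧ ∃ m0 : ℝ, 1 ≤ m0 ∧ ∃ bad : ℕ → Set M.P,
      (∀ i, IsClosed (bad i) ∧ bad i ≠ Set.univ) ∧ ∀ x ∈ I.Reg, (∀ i, x ∉ bad i) →
        ∀ (a b : ℕ) (m R : ℝ), m0 ≤ m → 1 ≤ R → m ≤ a → (a : ℝ) ≤ C1 * m →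
          m * R ^ 2 ≤ C1 * b → (b : ℝ) ≤ C1 * (m * R ^ 2) →
          c * (m ^ (2 * n - I.k) * R ^ (2 * (n - I.k))) ≤
            Module.finrank ℂ ((M.Sec (a • A + b • L)).map
              (LinearMap.funLeft ℂ ℂ (Subtype.val : I.Fib x → M.P))) := by
  obtain ⟨c, hc, a0, ha0, bad, hbad, h⟩ := nlow_gen I hadd hsymm hA hL hLL hL0
  have hC0 : 0 < C1 := lt_of_lt_of_le one_pos hC1
  have hK : (0 : ℝ) < (1 + 2 * C1) ^ I.k := by positivity
  refine ⟨c / (C1 ^ n * (1 + 2 * C1) ^ I.k), by positivity, a0, by exact_mod_cast ha0, bad, hbad,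
    fun x hx hxb a b m R hm hR hma haC hmb hbC => ?_⟩
  have ha0' : (1 : ℝ) ≤ a0 := by exact_mod_cast ha0
  have hm1 : 1 ≤ m := ha0'.trans hm
  have hm0 : 0 < m := lt_of_lt_of_le one_pos hm1
  have hR0 : 0 < R := lt_of_lt_of_le one_pos hR
  have hab : a0 ≤ a := by
    have : (a0 : ℝ) ≤ a := hm.trans hma
    exact_mod_cast this
  have hr := h x hx hxb a b hab
  set N : ℝ := (Module.finrank ℂ ((M.Sec (a • A + b • L)).map
    (LinearMap.funLeft ℂ ℂ (Subtype.val : I.Fib x → M.P))) : ℝ) with hN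
  have hN0 : 0 ≤ N := by
    rw [hN]
    exact Nat.cast_nonneg _
  have hb0 : (0 : ℝ) ≤ b := Nat.cast_nonneg b
  have hR2 : 1 ≤ R ^ 2 := one_le_pow₀ hR
  have hmR : m ≤ m * R ^ 2 := le_mul_of_one_le_right hm0.le hR2
  -- the lower bound of `a (a + b)`
  have h1 : m ^ 2 * R ^ 2 ≤ C1 * ((a : ℝ) * (a + b)) := by
    have h2 : m * (m * R ^ 2) ≤ (a : ℝ) * (C1 * b) :=
      mul_le_mul hma hmb (by positivity) (Nat.cast_nonneg a)
    have h3 : (0 : ℝ) ≤ C1 * ((a : ℝ) * a) := by positivity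
    nlinarith
  have h2 : (m ^ 2 * R ^ 2) ^ n ≤ C1 ^ n * ((a : ℝ) * (a + b)) ^ n := by
    have h3 := pow_le_pow_left₀ (by positivity) h1 n
    rwa [mul_pow C1] at h3
  -- the upper bound of `1 + a + b`
  have h3 : 1 + (a : ℝ) + b ≤ (1 + 2 * C1) * (m * R ^ 2) := by
    have h4 : C1 * m ≤ C1 * (m * R ^ 2) := mul_le_mul_of_nonneg_left hmR hC0.le
    nlinarith
  have h4 : (1 + (a : ℝ) + b) ^ I.k ≤ (1 + 2 * C1) ^ I.k * (m * R ^ 2) ^ I.k := by
    rw [← mul_pow]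
    exact pow_le_pow_left₀ (by positivity) h3 I.k
  have h5 : c * (m ^ 2 * R ^ 2) ^ n ≤
      C1 ^ n * ((1 + 2 * C1) ^ I.k * (m * R ^ 2) ^ I.k * N) := by
    calc c * (m ^ 2 * R ^ 2) ^ n ≤ c * (C1 ^ n * ((a : ℝ) * (a + b)) ^ n) :=
          mul_le_mul_of_nonneg_left h2 hc.le
      _ = C1 ^ n * (c * ((a : ℝ) * (a + b)) ^ n) := by ring
      _ ≤ C1 ^ n * ((1 + (a : ℝ) + b) ^ I.k * N) :=
          mul_le_mul_of_nonneg_left hr (by positivity)
      _ ≤ _ := mul_le_mul_of_nonneg_left (mul_le_mul_of_nonneg_right h4 hN0) (by positivity)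
  have h6 : (m ^ 2 * R ^ 2) ^ n =
      (m ^ (2 * n - I.k) * R ^ (2 * (n - I.k))) * (m * R ^ 2) ^ I.k := by
    have e1 : 2 * n = (2 * n - I.k) + I.k := by omega
    have e2 : 2 * n = 2 * (n - I.k) + 2 * I.k := by omega
    calc (m ^ 2 * R ^ 2) ^ n = m ^ (2 * n) * R ^ (2 * n) := by
          rw [mul_pow, ← pow_mul, ← pow_mul]
      _ = m ^ ((2 * n - I.k) + I.k) * R ^ (2 * (n - I.k) + 2 * I.k) := by rw [← e1, ← e2]
      _ = _ := by
          rw [pow_add, pow_add, mul_pow, ← pow_mul]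
          ring
  have h7 : 0 < (m * R ^ 2) ^ I.k := by positivity
  rw [h6] at h5
  have h8 : c * (m ^ (2 * n - I.k) * R ^ (2 * (n - I.k))) ≤
      (C1 ^ n * (1 + 2 * C1) ^ I.k) * N := by
    refine le_of_mul_le_mul_right ?_ h7
    calc c * (m ^ (2 * n - I.k) * R ^ (2 * (n - I.k))) * (m * R ^ 2) ^ I.k
        = c * ((m ^ (2 * n - I.k) * R ^ (2 * (n - I.k))) * (m * R ^ 2) ^ I.k) := by ring
      _ ≤ C1 ^ n * ((1 + 2 * C1) ^ I.k * (m * R ^ 2) ^ I.k * N) := h5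
      _ = (C1 ^ n * (1 + 2 * C1) ^ I.k) * N * (m * R ^ 2) ^ I.k := by ring
  rw [div_mul_eq_mul_div, div_le_iff₀ (by positivity)]
  linarith

/-- **upper bound** of `h^0(a A + b L)` -/
theorem nupp (hadd : ∀ x y z, q (x + y) z = q x z + q y z)
    (hsymm : ∀ x y, q x y = q y x) (hA : A ∈ M.Ample) (hL : L ∈ M.Nef) (hLL : q L L = 0)
    (hL0 : L ≠ 0) :
    ∃ C : ℝ, 0 < C ∧ ∀ a b : ℕ, 1 ≤ a →
      (Module.finrank ℂ (M.Sec (a • A + b • L)) : ℝ) ≤ C * ((a : ℝ) * (a + b)) ^ n := by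
  obtain ⟨C, hC, h⟩ := poly_upper M.rr n M.rr_deg
  have h1 : 0 < q A A := M.ample_q A hA
  have h2 : 0 < q L A := by
    rw [hsymm]
    exact M.ample_nef_q A hA L hL hL0
  set D : ℝ := ((q A A + 2 * q L A : ℤ) : ℝ) with hD
  have hD0 : 0 < D := by
    rw [hD]
    exact_mod_cast (by omega : 0 < q A A + 2 * q L A)
  refine ⟨C * D ^ n, by positivity, fun a b ha => ?_⟩
  have hE := comb_ample hA hL a b ha
  have hrr := M.rr_eq _ hE
  obtain ⟨hlo, hup⟩ := comb_bounds hadd hsymm hA hL hLL hL0 a b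
  set t : ℤ := q (a • A + b • L) (a • A + b • L) with ht
  have ht1 : (1 : ℚ) ≤ (t : ℚ) := by
    have h3 : (1 : ℤ) ≤ (a : ℤ) * (a + b) := by
      have h4 : (1 : ℤ) ≤ a := by exact_mod_cast ha
      have h5 : (0 : ℤ) ≤ b := Int.natCast_nonneg b
      nlinarith
    exact_mod_cast h3.trans hlo
  have h3 := h (t : ℚ) ht1
  rw [← hrr] at h3
  have h4 : ((t : ℚ) : ℝ) ≤ D * ((a : ℝ) * (a + b)) := by
    have : ((t : ℤ) : ℝ) ≤ D * ((a : ℝ) * (a + b)) := by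
      rw [hD]
      exact_mod_cast hup
    simpa using this
  have h5 : (0 : ℝ) ≤ ((t : ℚ) : ℝ) := by
    have : (0 : ℚ) ≤ (t : ℚ) := zero_le_one.trans ht1
    exact_mod_cast this
  calc (Module.finrank ℂ (M.Sec (a • A + b • L)) : ℝ)
      = (((Module.finrank ℂ (M.Sec (a • A + b • L)) : ℚ)) : ℝ) := by norm_cast
    _ ≤ C * ((t : ℚ) : ℝ) ^ n := h3
    _ ≤ C * (D * ((a : ℝ) * (a + b))) ^ n :=
        mul_le_mul_of_nonneg_left (pow_le_pow_left₀ h5 h4 n) hC.le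
    _ = C * D ^ n * ((a : ℝ) * (a + b)) ^ n := by
        rw [mul_pow]
        ring

/-- the rank of the restriction is at most `h^0` -/
theorem rank_le (x : Lam) (S : Set M.P) :
    Module.finrank ℂ ((M.Sec x).map
      (LinearMap.funLeft ℂ ℂ (Subtype.val : S → M.P))) ≤ Module.finrank ℂ (M.Sec x) := by
  have := M.sec_fin x
  exact Submodule.finrank_map_le _ _

/-- **upper bound** of the rank for `a ~ m`, `b ~ m R^2` -/
theorem nupp_mR (hadd : ∀ x y z, q (x + y) z = q x z + q y z)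
    (hsymm : ∀ x y, q x y = q y x) (hA : A ∈ M.Ample) (hL : L ∈ M.Nef) (hLL : q L L = 0)
    (hL0 : L ≠ 0) (C1 : ℝ) (hC1 : 1 ≤ C1) :
    ∃ C : ℝ, 0 < C ∧ ∀ (a b : ℕ) (m R : ℝ) (S : Set M.P), 1 ≤ a → 1 ≤ m → 1 ≤ R →
      (a : ℝ) ≤ C1 * m → (b : ℝ) ≤ C1 * (m * R ^ 2) →
      (Module.finrank ℂ ((M.Sec (a • A + b • L)).map
        (LinearMap.funLeft ℂ ℂ (Subtype.val : S → M.P))) : ℝ) ≤
          C * (m ^ (2 * n) * R ^ (2 * n)) := by
  obtain ⟨C, hC, h⟩ := nupp hadd hsymm hA hL hLL hL0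
  have hC0 : 0 < C1 := lt_of_lt_of_le one_pos hC1
  refine ⟨C * (2 * C1 ^ 2) ^ n, by positivity, fun a b m R S ha hm hR haC hbC => ?_⟩
  have hm0 : 0 < m := lt_of_lt_of_le one_pos hm
  have hR0 : 0 < R := lt_of_lt_of_le one_pos hR
  have h1 := h a b ha
  have h2 : (Module.finrank ℂ ((M.Sec (a • A + b • L)).map
      (LinearMap.funLeft ℂ ℂ (Subtype.val : S → M.P))) : ℝ) ≤
        Module.finrank ℂ (M.Sec (a • A + b • L)) := by
    exact_mod_cast rank_le (a • A + b • L) S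
  have hR2 : 1 ≤ R ^ 2 := one_le_pow₀ hR
  have hmR : C1 * m ≤ C1 * (m * R ^ 2) :=
    mul_le_mul_of_nonneg_left (le_mul_of_one_le_right hm0.le hR2) hC0.le
  have h3 : (a : ℝ) * (a + b) ≤ (2 * C1 ^ 2) * (m ^ 2 * R ^ 2) := by
    have h4 : (a : ℝ) + b ≤ 2 * (C1 * (m * R ^ 2)) := by linarith
    calc (a : ℝ) * (a + b) ≤ (C1 * m) * (2 * (C1 * (m * R ^ 2))) :=
          mul_le_mul haC h4 (by positivity) (by positivity)
      _ = _ := by ring
  calc (Module.finrank ℂ ((M.Sec (a • A + b • L)).map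
        (LinearMap.funLeft ℂ ℂ (Subtype.val : S → M.P))) : ℝ)
      ≤ C * ((a : ℝ) * (a + b)) ^ n := h2.trans h1
    _ ≤ C * ((2 * C1 ^ 2) * (m ^ 2 * R ^ 2)) ^ n :=
        mul_le_mul_of_nonneg_left (pow_le_pow_left₀ (by positivity) h3 n) hC.le
    _ = C * (2 * C1 ^ 2) ^ n * (m ^ (2 * n) * R ^ (2 * n)) := by
        rw [mul_pow, mul_pow (m ^ 2), ← pow_mul, ← pow_mul]
        ring

end Pool.Agent.H61.HN
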